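import Pool.Agent.Helper85.PCP.Stmts

/-!
# PCP(4), modules WACT and WINI
-/

namespace PCP4

theorem wact_lt1_length (A τ : ℕ) (h : τ < A) : (lt1 A (some τ)).length = nu A + 1 := by
  simp only [lt1, List.length_append, List.length_cons, List.length_replicate, xx, nu]
  omega

theorem wact_letters_append (A : ℕ) (W W' : List (Option ℕ)) :
    letters A (W ++ W') = letters A W ++ letters A W' := List.flatMap_append ..

theorem wact_letters_none (A n : ℕ) : letters A (List.replicate n none) = List.replicate n true := by
  induction n with
  | zero => rfl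
  | succ n ih =>
    rw [List.replicate_succ, List.replicate_succ]
    change lt1 A none ++ letters A (List.replicate n none) = _
    rw [ih]
    rfl

theorem wact_reduce_none (n : ℕ) : (List.replicate n (none : Option ℕ)).reduceOption = [] := by
  induction n with
  | zero => rfl
  | succ n ih => rw [List.replicate_succ, List.reduceOption_cons_of_none, ih]

theorem wact_tokOk (A : ℕ) (W : List (Option ℕ)) (h : ∀ x ∈ W.reduceOption, x < A) : TokOk A W :=
  fun τ hτ => h τ (List.reduceOption_mem_iff.2 hτ)

theorem wact_head (l : List Bool) (h : l.getD 0 true = false) : l = false :: l.tail := by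
  cases l with
  | nil => simp at h
  | cons a l =>
    simp at h
    rw [h]
    rfl

theorem st_WACT (hW : ST_WINS) : ST_WACT := by
  intro V s A P D' a b hok τ hτ p hp
  obtain ⟨h1, h2, h3⟩ := hok.hP τ hτ p hp
  obtain ⟨k1, k2, k3⟩ := hW V A s p hok.hA hok.hV hok.hVA h1 h2 h3
  have hs := hok.hs
  have hlet : letters A (Wact V s A p) =
      letters A (wins V A (V * nu A - 1) s p) ++ [true, true] := by
    rw [Wact, wact_letters_append]
    rfl
  have hred : (Wact V s A p).reduceOption = p := by
    rw [Wact, List.reduceOption_append, k2]
    change p ++ [] = p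
    rw [List.append_nil]
  have hw : 2 * A + 2 ≤ V * nu A - 1 := by
    have h4 : 3 * nu A ≤ V * nu A := Nat.mul_le_mul_right _ hok.hV
    have h5 : nu A = 4 * A + 2 := rfl
    omega
  have hget : ∀ j < s, ∀ i < 2 * A + 2,
      (letters A (Wact V s A p)).getD (j * (V * nu A - 1) + i) true = false := by
    intro j hj i hi
    have h6 : j * (V * nu A - 1) + i < (letters A (wins V A (V * nu A - 1) s p)).length := by
      rw [k1]
      calc j * (V * nu A - 1) + i < j * (V * nu A - 1) + (V * nu A - 1) := by omega
        _ = (j + 1) * (V * nu A - 1) := by ring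
        _ ≤ s * (V * nu A - 1) := Nat.mul_le_mul_right _ hj
    rw [hlet, List.getD_append _ _ _ _ h6]
    exact k3 j hj i hi
  refine ⟨?_, hred, ?_, ?_, hget⟩
  · rw [hlet, List.length_append, k1]
    simp
    ring
  · refine wact_tokOk A _ ?_
    rw [hred]
    exact h3
  · refine wact_head _ ?_
    have := hget 0 (by omega) 0 (by omega)
    simpa using this

theorem st_WINI (hW : ST_WINS) : ST_WINI := by
  intro V s A P D' a b hok
  obtain ⟨h1, h2, h3⟩ := hok.hD
  obtain ⟨k1, k2, k3⟩ := hW V A (s - 2) D' hok.hA hok.hV hok.hVA h1 h2 h3
  have hs := hok.hs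
  have hA := hok.hA
  have ha := hok.ha
  have hb := hok.hb
  have h5 : nu A = 4 * A + 2 := rfl
  have h4 : 3 * nu A ≤ V * nu A := Nat.mul_le_mul_right _ hok.hV
  set w := V * nu A - 1 with hw
  have hlet : letters A (Winit V s A D' a b) = letters A (wins V A w (s - 2) D') ++
      (lt1 A (some a) ++ (List.replicate (w + 2 * A - 2 * (nu A + 1)) true ++
        lt1 A (some b))) := by
    rw [Winit, wact_letters_append]
    congr 1
    change lt1 A (some a) ++ letters A (List.replicate _ none ++ [some b]) = _
    rw [wact_letters_append, wact_letters_none]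
    congr 2
    change lt1 A (some b) ++ [] = _
    rw [List.append_nil]
  have hred : (Winit V s A D' a b).reduceOption = D' ++ [a, b] := by
    rw [Winit, List.reduceOption_append, k2, List.reduceOption_cons_of_some,
      List.reduceOption_append, wact_reduce_none]
    rfl
  have hla := wact_lt1_length A a ha
  have hlb := wact_lt1_length A b hb
  have hs1 : (s - 1) * w = (s - 2) * w + w := by
    obtain ⟨s', rfl⟩ : ∃ s', s = s' + 2 := ⟨s - 2, by omega⟩
    have e1 : s' + 2 - 1 = s' + 1 := rfl
    rw [e1, Nat.add_sub_cancel]
    ring
  have hlen : (letters A (Winit V s A D' a b)).length = (s - 1) * w + 2 * A := by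
    rw [hlet, List.length_append, List.length_append, List.length_append, k1, hla, hlb,
      List.length_replicate, hs1]
    omega
  -- the last two letters
  have hend : ∃ R : List Bool, letters A (Winit V s A D' a b) = R ++ [false, false] := by
    have e1 : nu A - xx A b = (nu A - xx A b - 2) + 2 := by
      simp only [xx]
      omega
    have e2 : lt1 A (some b) = (List.replicate (xx A b) false ++
        true :: List.replicate (nu A - xx A b - 2) false) ++ [false, false] := by
      rw [lt1, e1, List.replicate_add]
      simp
    rw [hlet, e2]
    exact ⟨letters A (wins V A w (s - 2) D') ++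
      (lt1 A (some a) ++ (List.replicate (w + 2 * A - 2 * (nu A + 1)) true ++
        (List.replicate (xx A b) false ++
        true :: List.replicate (nu A - xx A b - 2) false))), by simp only [List.append_assoc]⟩
  obtain ⟨R, hR⟩ := hend
  have hRlen : R.length + 2 = (s - 1) * w + 2 * A := by
    rw [← hlen, hR, List.length_append]
    rfl
  refine ⟨?_, hred, ?_, ?_, ?_⟩
  · rw [hlen]
    ring
  · refine wact_tokOk A _ ?_
    rw [hred]
    intro x hx
    rcases List.mem_append.1 hx with hx | hx
    · exact h3 x hx
    · simp only [List.mem_cons, List.not_mem_nil, or_false] at hx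
      rcases hx with rfl | rfl
      · exact ha
      · exact hb
  · have e3 : R ++ [false, false] = (R ++ [false]) ++ [false] := by simp
    rw [hR, e3, List.dropLast_concat]
  · intro j hj
    rcases lt_trichotomy j (s - 2) with hj' | hj' | hj'
    · have h6 : j * w + 2 * A - 2 < (letters A (wins V A w (s - 2) D')).length := by
        rw [k1]
        calc j * w + 2 * A - 2 < j * w + w := by omega
          _ = (j + 1) * w := by ring
          _ ≤ (s - 2) * w := Nat.mul_le_mul_right _ hj'
      rw [hlet, List.getD_append _ _ _ _ h6]
      have h7 : j * w + 2 * A - 2 = j * w + (2 * A - 2) := by omega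
      rw [h7]
      exact k3 j hj' (2 * A - 2) (by omega)
    · subst hj'
      have h6 : (letters A (wins V A w (s - 2) D')).length ≤ (s - 2) * w + 2 * A - 2 := by
        rw [k1]
        omega
      have h7 : (s - 2) * w + 2 * A - 2 - (s - 2) * w = 2 * A - 2 := by omega
      rw [hlet, List.getD_append_right _ _ _ _ h6, k1, h7]
      have h8 : 2 * A - 2 < (lt1 A (some a)).length := by
        rw [hla]
        omega
      rw [List.getD_append _ _ _ _ h8, lt1]
      have h9 : 2 * A - 2 < (List.replicate (xx A a) false).length := by
        rw [List.length_replicate, xx]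
        omega
      rw [List.getD_append _ _ _ _ h9, List.getD_eq_getElem _ _ h9]
      simp
    · have h6 : j = s - 1 := by omega
      subst h6
      have h7 : (s - 1) * w + 2 * A - 2 = R.length := by omega
      rw [h7, hR, List.getD_append_right _ _ _ _ le_rfl, Nat.sub_self]
      rfl

end PCP4
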