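import Pool.Agent.Helper85.PCP.Stmts

/-!
# PCP(4), module WINS: the windows
-/

namespace PCP4

theorem wins_lt1_length (A τ : ℕ) (h : τ < A) : (lt1 A (some τ)).length = nu A + 1 := by
  simp only [lt1, List.length_append, List.length_cons, List.length_replicate, xx, nu]
  omega

theorem wins_sym_length (A : ℕ) (G : List ℕ) (h : ∀ x ∈ G, x < A) :
    (letters A (G.map some)).length = (nu A + 1) * G.length := by
  induction G with
  | nil => simp [letters]
  | cons a G ih =>
    have h1 : letters A ((a :: G).map some) = lt1 A (some a) ++ letters A (G.map some) := rfl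
    rw [h1, List.length_append, wins_lt1_length A a (h a (List.mem_cons_self ..)),
      ih (fun x hx => h x (List.mem_cons_of_mem _ hx)), List.length_cons]
    ring

theorem wins_letters_append (A : ℕ) (W W' : List (Option ℕ)) :
    letters A (W ++ W') = letters A W ++ letters A W' := List.flatMap_append ..

theorem wins_letters_none (A n : ℕ) : letters A (List.replicate n none) = List.replicate n true := by
  induction n with
  | zero => rfl
  | succ n ih =>
    rw [List.replicate_succ, List.replicate_succ]
    change lt1 A none ++ letters A (List.replicate n none) = _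
    rw [ih]
    rfl

theorem wins_win_length (A w : ℕ) (G : List ℕ) (h : ∀ x ∈ G, x < A)
    (hw : (nu A + 1) * G.length ≤ w) : (letters A (win A w G)).length = w := by
  rw [win, wins_letters_append, List.length_append, wins_sym_length A G h, wins_letters_none,
    List.length_replicate]
  omega

theorem wins_win_reduce (A w : ℕ) (G : List ℕ) : (win A w G).reduceOption = G := by
  rw [win, List.reduceOption_append]
  have h1 : (G.map some).reduceOption = G := by
    induction G with
    | nil => rfl
    | cons a G ih => rw [List.map_cons, List.reduceOption_cons_of_some, ih]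
  have h2 : ∀ n : ℕ, (List.replicate n (none : Option ℕ)).reduceOption = [] := by
    intro n
    induction n with
    | zero => rfl
    | succ n ih => rw [List.replicate_succ, List.reduceOption_cons_of_none, ih]
  rw [h1, h2, List.append_nil]

theorem wins_win_getD (A w : ℕ) (G : List ℕ) (hG : G ≠ []) (i : ℕ) (hi : i < 2 * A + 2) :
    (letters A (win A w G)).getD i true = false := by
  obtain ⟨a, G, rfl⟩ := List.exists_cons_of_ne_nil hG
  have h1 : letters A (win A w (a :: G)) = List.replicate (xx A a) false ++
      (true :: List.replicate (nu A - xx A a) false ++ letters A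
        (G.map some ++ List.replicate (w - (nu A + 1) * (a :: G).length) none)) := by
    rw [← List.append_assoc]
    rfl
  have h2 : i < (List.replicate (xx A a) false).length := by
    rw [List.length_replicate, xx]
    omega
  rw [h1, List.getD_append _ _ _ _ h2, List.getD_eq_getElem _ _ h2]
  simp

theorem wins_flat_getD {α : Type} (w : ℕ) (f : ℕ → List α) (r : ℕ)
    (hf : ∀ j < r, (f j).length = w) : ((List.range r).flatMap f).length = r * w ∧
    ∀ j < r, ∀ i < w, ∀ d, ((List.range r).flatMap f).getD (j * w + i) d = (f j).getD i d := by
  induction r with
  | zero => exact ⟨by simp, fun j hj => absurd hj (Nat.not_lt_zero _)⟩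
  | succ r ih =>
    obtain ⟨h1, h2⟩ := ih (fun j hj => hf j (Nat.lt_succ_of_lt hj))
    have h3 : (List.range (r + 1)).flatMap f = (List.range r).flatMap f ++ f r := by
      rw [List.range_succ, List.flatMap_append]
      simp
    refine ⟨?_, ?_⟩
    · rw [h3, List.length_append, h1, hf r (Nat.lt_succ_self r)]
      ring
    · intro j hj i hi d
      rw [h3]
      rcases Nat.lt_succ_iff_lt_or_eq.1 hj with h | h
      · have h4 : j * w + i < ((List.range r).flatMap f).length := by
          rw [h1]
          calc j * w + i < j * w + w := by omega
            _ = (j + 1) * w := by ring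
            _ ≤ r * w := Nat.mul_le_mul_right _ h
        rw [List.getD_append _ _ _ _ h4, h2 j h i hi d]
      · subst h
        have h4 : ((List.range j).flatMap f).length ≤ j * w + i := by
          rw [h1]
          omega
        rw [List.getD_append_right _ _ _ _ h4, h1, Nat.add_sub_cancel_left]

theorem wins_off_succ (V r n j : ℕ) (hV : 3 ≤ V) (hr : r ≤ n) (hj : j < r) :
    off V r n j + 1 ≤ off V r n (j + 1) ∧ off V r n (j + 1) ≤ off V r n j + (V - 1) ∧
      off V r n (j + 1) ≤ n := by
  have h1 : (j + 1) * (V - 1) = j * (V - 1) + (V - 1) := by ring
  simp only [off, h1]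
  omega

theorem wins_off_zero (V r n : ℕ) : off V r n 0 = 0 := by
  simp [off]

theorem wins_off_top (V r n : ℕ) (h : n ≤ r * (V - 1)) : off V r n r = n := by
  simp only [off]
  omega

theorem st_WINS : ST_WINS := by
  intro V A r p hA hV hVA hr hp hx
  set w := V * nu A - 1 with hw
  set G : ℕ → List ℕ := fun j =>
    (p.drop (off V r p.length j)).take (off V r p.length (j + 1) - off V r p.length j) with hG
  have hGx : ∀ j, ∀ x ∈ G j, x < A := by
    intro j x hxG
    exact hx x (List.mem_of_mem_drop (List.mem_of_mem_take hxG))
  have hGlen : ∀ j < r, (G j).length = off V r p.length (j + 1) - off V r p.length j := by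
    intro j hj
    obtain ⟨h1, h2, h3⟩ := wins_off_succ V r p.length j hV hr hj
    rw [hG]
    simp only [List.length_take, List.length_drop]
    omega
  have hGw : ∀ j < r, (nu A + 1) * (G j).length ≤ w := by
    intro j hj
    obtain ⟨h1, h2, h3⟩ := wins_off_succ V r p.length j hV hr hj
    have h4 : (G j).length ≤ V - 1 := by
      rw [hGlen j hj]
      omega
    have h5 : (nu A + 1) * (G j).length ≤ (nu A + 1) * (V - 1) := Nat.mul_le_mul_left _ h4
    obtain ⟨V', rfl⟩ : ∃ V', V = V' + 1 := ⟨V - 1, by omega⟩
    have h6 : (V' + 1) * nu A = nu A * V' + nu A := by ring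
    have h7 : (nu A + 1) * (V' + 1 - 1) = nu A * V' + V' := by
      rw [Nat.add_sub_cancel]
      ring
    have h8 : V' + 1 ≤ nu A := by
      simp only [nu]
      omega
    omega
  have hdef : wins V A w r p = (List.range r).flatMap (fun j => win A w (G j)) := rfl
  have hlet : letters A (wins V A w r p) =
      (List.range r).flatMap (fun j => letters A (win A w (G j))) := by
    rw [hdef, letters, List.flatMap_assoc]
    rfl
  have hlen := wins_flat_getD w (fun j => letters A (win A w (G j))) r
    (fun j hj => wins_win_length A w (G j) (hGx j) (hGw j hj))
  refine ⟨?_, ?_, ?_⟩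
  · rw [hlet]
    exact hlen.1
  · have key : ∀ m ≤ r, ((List.range m).flatMap (fun j => win A w (G j))).reduceOption =
        p.take (off V r p.length m) := by
      intro m
      induction m with
      | zero =>
        intro _
        rw [wins_off_zero]
        rfl
      | succ m ih =>
        intro hm
        obtain ⟨h1, h2, h3⟩ := wins_off_succ V r p.length m hV hr hm
        rw [List.range_succ, List.flatMap_append, List.reduceOption_append, ih (by omega)]
        have h4 : (List.flatMap (fun j => win A w (G j)) [m]).reduceOption = G m := by
          simp only [List.flatMap_cons, List.flatMap_nil, List.append_nil]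
          exact wins_win_reduce A w (G m)
        rw [h4]
        have h5 : off V r p.length (m + 1) = off V r p.length m +
          (off V r p.length (m + 1) - off V r p.length m) := by omega
        conv_rhs => rw [h5, List.take_add]
    rw [hdef, key r le_rfl, wins_off_top V r _ hp, List.take_length]
  · intro j hj i hi
    obtain ⟨h1, h2, h3⟩ := wins_off_succ V r p.length j hV hr hj
    have hne : G j ≠ [] := by
      intro h0
      have := hGlen j hj
      rw [h0, List.length_nil] at this
      omega
    have hiw : i < w := by
      rw [hw]
      have h4 : 3 * nu A ≤ V * nu A := Nat.mul_le_mul_right _ hV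
      have h5 : nu A = 4 * A + 2 := rfl
      omega
    rw [hlet, hlen.2 j hj i hiw]
    exact wins_win_getD A w (G j) hne i hi

end PCP4
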